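import Mathlib
import Pool.Agent.T9h71.KF.Main

/-!
# MP_5fe7ea_an, Q1: the separable refinement of Ky Fan's majorization holds

For positive semidefinite `A_i` (`m × m`) and `B_i` (`n × n`), `i = 1, …, R`, the eigenvalue vector of
`∑ A_i ⊗ B_i` is majorized by that of `∑ A_i^↓ ⊗ B_i^↓`.  The question is the case `R = 2`.

Idea of the proof.  The sum of the `t` largest eigenvalues of `M = ∑ A_i ⊗ B_i` is the norm of the
derivation that `M` induces on the antisymmetric tensors of degree `t` over `ℂ^m ⊗ ℂ^n`.  Decompose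
`M` into a positive combination of products `E ⊗ G` of projections of rank `I` and `K`.  The number
operator of `E ⊗ G` is at most the sum over `j` of the projections onto the span of the tensors with
at least `j` factors in `E' ⊗ G`, `E'` any subspace of dimension `I`; these spans are stable under
`GL_m`.  The positive combination of the latter projections commutes with `GL_m`, so each of its
eigenspaces contains a highest weight vector, of some weight `λ`, and there at most
`∑_{i < I} min (λ_i, K)` of the `j`'s contribute: this is the number of points of the diagram of `λ`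
in the rectangle `I × K`.
-/

set_option autoImplicit false

namespace Pool.Agent.Results.MP_5fe7ea_an.SeparableKyFan

open Finset Matrix Pool.Agent.T9h71.KF
open scoped Kronecker ComplexOrder

/-- `x` sorted non-increasingly. -/
noncomputable def dec {k : ℕ} (x : Fin k → ℝ) : Fin k → ℝ := fun j => x (Tuple.sort x (Fin.rev j))

/-- `x ≼ y`: the partial sums of `x` sorted non-increasingly are at most those of `y` sorted
non-increasingly, and the total sums agree. -/
def Majorized {k : ℕ} (x y : Fin k → ℝ) : Prop :=
  (∀ t : ℕ, t ≤ k → (∑ j : Fin k, if j.1 < t then dec x j else 0) ≤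
    ∑ j : Fin k, if j.1 < t then dec y j else 0) ∧ ∑ j, x j = ∑ j, y j

/-- `A^↓`: the diagonal matrix with the eigenvalues of `A` in non-increasing order
(`eigenvalues₀` is Mathlib's vector of eigenvalues, with multiplicity, in non-increasing order). -/
noncomputable def down {k : ℕ} {A : Matrix (Fin k) (Fin k) ℂ} (hA : A.IsHermitian) :
    Matrix (Fin k) (Fin k) ℂ :=
  Matrix.diagonal fun i => ((hA.eigenvalues₀ (Fin.cast (Fintype.card_fin k).symm i) : ℝ) : ℂ)

lemma dec_of_antitone {k : ℕ} (x : Fin k → ℝ) (hx : Antitone x) : dec x = x := by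
  have h1 : Monotone (x ∘ (Fin.revPerm : Equiv.Perm (Fin k))) := by
    intro a b hab
    exact hx (Fin.rev_le_rev.2 hab)
  have h2 := Tuple.comp_sort_eq_comp_iff_monotone.2 h1
  funext j
  unfold dec
  have h3 := congrFun h2 (Fin.rev j)
  simp only [Function.comp, Fin.revPerm_apply, Fin.rev_rev] at h3
  exact h3.symm

lemma down_eq {k : ℕ} {A : Matrix (Fin k) (Fin k) ℂ} (hA : A.IsHermitian) :
    down hA = Matrix.diagonal fun i => ((ev hA i : ℝ) : ℂ) := rfl

lemma trace_eq {ι : Type} [Fintype ι] [DecidableEq ι] {X : Matrix ι ι ℂ}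
    (hX : X.IsHermitian) : X.trace = ((∑ i, hX.eigenvalues i : ℝ) : ℂ) := by
  rw [hX.trace_eq_sum_eigenvalues]
  push_cast
  rfl

lemma down_trace {k : ℕ} {A : Matrix (Fin k) (Fin k) ℂ} (hA : A.IsHermitian) :
    (down hA).trace = A.trace := by
  rw [down_eq, Matrix.trace_diagonal, trace_eq hA,
    ← Equiv.sum_comp (eq0 k) (fun i => hA.eigenvalues i)]
  push_cast
  exact Finset.sum_congr rfl fun i _ => by rw [ev_eq]

lemma sum_eigenvalues₀ {ι : Type} [Fintype ι] [DecidableEq ι] {X : Matrix ι ι ℂ}
    (hX : X.IsHermitian) : ((∑ j, hX.eigenvalues₀ j : ℝ) : ℂ) = X.trace := by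
  rw [trace_eq hX]
  unfold Matrix.IsHermitian.eigenvalues
  rw [Equiv.sum_comp (Fintype.equivOfCardEq (Fintype.card_fin (Fintype.card ι))).symm
    (fun j => hX.eigenvalues₀ j)]

/-- **The separable refinement of Ky Fan's majorization.** -/
theorem result (m n R : ℕ) (A : Fin R → Matrix (Fin m) (Fin m) ℂ)
    (B : Fin R → Matrix (Fin n) (Fin n) ℂ) (hA : ∀ i, (A i).PosSemidef)
    (hB : ∀ i, (B i).PosSemidef) :
    ∃ (hM : (∑ i, A i ⊗ₖ B i).IsHermitian)
      (hM' : (∑ i, down (hA i).isHermitian ⊗ₖ down (hB i).isHermitian).IsHermitian),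
      Majorized hM.eigenvalues₀ hM'.eigenvalues₀ := by
  classical
  have hM : (∑ i, A i ⊗ₖ B i).IsHermitian := by
    show (∑ i, A i ⊗ₖ B i)ᴴ = _
    rw [Matrix.conjTranspose_sum]
    refine Finset.sum_congr rfl fun i _ => ?_
    rw [Matrix.conjTranspose_kronecker, (hA i).isHermitian, (hB i).isHermitian]
  have hdown : ∀ {k : ℕ} {X : Matrix (Fin k) (Fin k) ℂ} (hX : X.IsHermitian),
      (down hX)ᴴ = down hX := by
    intro k X hX
    unfold down
    rw [Matrix.diagonal_conjTranspose]
    congr 1
    ext i
    simp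
  have hM' : (∑ i, down (hA i).isHermitian ⊗ₖ down (hB i).isHermitian).IsHermitian := by
    show (∑ i, down (hA i).isHermitian ⊗ₖ down (hB i).isHermitian)ᴴ = _
    rw [Matrix.conjTranspose_sum]
    refine Finset.sum_congr rfl fun i _ => ?_
    rw [Matrix.conjTranspose_kronecker, hdown, hdown]
  refine ⟨hM, hM', ?_, ?_⟩
  · intro t ht
    rw [dec_of_antitone _ hM.eigenvalues₀_antitone, dec_of_antitone _ hM'.eigenvalues₀_antitone]
    have hs := Matrix.isSymmetric_toEuclideanLin_iff.mpr hM
    have hs' := Matrix.isSymmetric_toEuclideanLin_iff.mpr hM'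
    obtain ⟨v, hv, hv2⟩ := kyfan_attained _ hs finrank_euclideanSpace ht
    refine le_trans (le_of_eq hv2.symm) ?_
    refine main_bound A B hA hB _ ?_ v hv
    intro T hT
    let e : T ≃ Fin t := T.equivFinOfCardEq hT
    let v' : Fin t → EuclideanSpace ℂ (Fin m × Fin n) := fun b =>
      EuclideanSpace.basisFun (Fin m × Fin n) ℂ (e.symm b : Fin m × Fin n)
    have hv' : Orthonormal ℂ v' :=
      (EuclideanSpace.basisFun (Fin m × Fin n) ℂ).orthonormal.comp _
        (Subtype.val_injective.comp e.symm.injective)
    have h1 := kyfan _ hs' finrank_euclideanSpace v' hv'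
    refine le_trans (le_of_eq ?_) h1
    have h2 : ∀ b, (inner ℂ (v' b) (Matrix.toEuclideanLin
        (∑ i, down (hA i).isHermitian ⊗ₖ down (hB i).isHermitian) (v' b))).re =
        ∑ r, ev (hA r).isHermitian (e.symm b : Fin m × Fin n).1 *
          ev (hB r).isHermitian (e.symm b : Fin m × Fin n).2 := by
      intro b
      set p : Fin m × Fin n := (e.symm b : Fin m × Fin n)
      have h3 : v' b = EuclideanSpace.single p 1 := by
        simp [v', p]
      rw [h3, EuclideanSpace.inner_single_left, map_one, one_mul]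
      have h4 : (Matrix.toEuclideanLin
        (∑ i, down (hA i).isHermitian ⊗ₖ down (hB i).isHermitian)
          (EuclideanSpace.single p 1)).ofLp p =
          ((∑ i, down (hA i).isHermitian ⊗ₖ down (hB i).isHermitian) *ᵥ (Pi.single p 1)) p := rfl
      rw [h4, Matrix.mulVec_single_one, Matrix.col_apply, Matrix.sum_apply, Complex.re_sum]
      refine Finset.sum_congr rfl fun r _ => ?_
      rw [Matrix.kroneckerMap_apply, down_eq, down_eq, Matrix.diagonal_apply_eq,
        Matrix.diagonal_apply_eq, ← Complex.ofReal_mul, Complex.ofReal_re]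
    rw [Finset.sum_congr rfl fun b _ => h2 b,
      Equiv.sum_comp e.symm (fun q : T => ∑ r, ev (hA r).isHermitian (q : Fin m × Fin n).1 *
          ev (hB r).isHermitian (q : Fin m × Fin n).2)]
    exact (Finset.sum_coe_sort T (fun p => ∑ r, ev (hA r).isHermitian p.1 *
          ev (hB r).isHermitian p.2)).symm
  · have h1 := sum_eigenvalues₀ hM
    have h2 := sum_eigenvalues₀ hM'
    have h3 : (∑ i, A i ⊗ₖ B i).trace =
        (∑ i, down (hA i).isHermitian ⊗ₖ down (hB i).isHermitian).trace := by
      rw [Matrix.trace_sum, Matrix.trace_sum]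
      refine Finset.sum_congr rfl fun i _ => ?_
      rw [Matrix.trace_kronecker, Matrix.trace_kronecker, down_trace, down_trace]
    rw [← h1, ← h2] at h3
    exact Complex.ofReal_injective h3

end Pool.Agent.Results.MP_5fe7ea_an.SeparableKyFan
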